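import Pool.Agent.LN2.CertChk

/-!
Project LN2 (MP_aaed04_an), certificate (C), final form (helper8):
for all `x, z ≥ 0` with `x + z ≤ 1`, `x, z < 1` and `b, g ∈ [0,1)`,

`EE x z b g + 3/1000 (x + z) ≤ 1.4426 (log 1/(1-x) + log 1/(1-z))`, and `1.4426 < 1 / log 2`.
-/

namespace Pool.Agent.LN2

lemma table : ((List.range 4).all fun i => (List.range 7).all fun j =>
    rchk 6 ((i : ℚ) / 8) ((j : ℚ) / 8) (1 / 8)) = true := by decide +kernel

lemma table' (i j : ℕ) (hi : i < 4) (hj : j < 7) :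
    rchk 6 ((i : ℚ) / 8) ((j : ℚ) / 8) (1 / 8) = true := by
  have h := table
  rw [List.all_eq_true] at h
  have h2 := h i (List.mem_range.mpr hi)
  rw [List.all_eq_true] at h2
  exact h2 j (List.mem_range.mpr hj)

/-- Integer part on a grid of mesh `1/8`. -/
lemma grid (n : ℕ) (y : ℝ) (h0 : 0 ≤ y) (h1 : y ≤ ((n : ℝ) + 1) / 8) :
    ∃ i : ℕ, i < n + 1 ∧ (i : ℝ) / 8 ≤ y ∧ y ≤ (i : ℝ) / 8 + 1 / 8 := by
  induction n with
  | zero => exact ⟨0, by norm_num, by simpa using h0, by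
      have : ((0 : ℕ) : ℝ) = 0 := by norm_num
      rw [this] at h1 ⊢
      linarith⟩
  | succ n ih =>
    rcases le_total y (((n : ℝ) + 1) / 8) with h | h
    · obtain ⟨i, h2, h3⟩ := ih h
      exact ⟨i, by omega, h3⟩
    · refine ⟨n + 1, by omega, ?_, ?_⟩
      · push_cast
        exact h
      · push_cast at h1 ⊢
        linarith

lemma good_mid {x z : ℝ} (hx : 0 ≤ x) (hxz : x ≤ z) (h1 : x + z ≤ 1) (h2 : 1 / 5 ≤ x + z)
    (h3 : z ≤ 7 / 8) : Good x z := by
  obtain ⟨i, hi, i1, i2⟩ := grid 3 x hx (by norm_num; linarith)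
  obtain ⟨j, hj, j1, j2⟩ := grid 6 z (by linarith) (by norm_num; linarith)
  have hi' : (i : ℚ) ≤ 3 := by
    have : i ≤ 3 := by omega
    exact_mod_cast this
  have hj' : (j : ℚ) ≤ 6 := by
    have : j ≤ 6 := by omega
    exact_mod_cast this
  refine rchk_sound 6 ((i : ℚ) / 8) ((j : ℚ) / 8) (1 / 8) (table' i j hi hj)
    (by positivity) (by positivity) (by norm_num) (by linarith) (by linarith) x z ?_ ?_ ?_ ?_
    hxz h1 h2
  · push_cast
    exact i1
  · push_cast
    exact i2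
  · push_cast
    exact j1
  · push_cast
    exact j2

/-- quadratic bound of `tt`. -/
lemma tt_quad {A : ℝ} (hA : 0 ≤ A) : tt A ≤ 243 / 200 * A ^ 2 := by
  unfold tt
  split_ifs with h
  · positivity
  · push Not at h
    set y : ℝ := 200 / 17 * A with hy
    have hA' : A = 17 / 200 * y := by
      rw [hy]
      ring
    have hy1 : 1 < y := by
      rw [hy]
      linarith
    have hq : 0 < y ^ 2 + 4 * y + 1 := by positivity
    have e : A - 17 / 200 - 17 / 200 * (3 * (y ^ 2 - 1) / (y ^ 2 + 4 * y + 1))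
        = 17 / 200 * ((y - 1) ^ 2 * (y + 2) / (y ^ 2 + 4 * y + 1)) := by
      rw [hA']
      field_simp
      ring
    rw [e, hA']
    have h3 : (y - 1) ^ 2 * (y + 2) / (y ^ 2 + 4 * y + 1) ≤ 243 * 17 / 40000 * y ^ 2 := by
      rw [div_le_iff₀ hq]
      nlinarith [sq_nonneg (y ^ 2 - 3 * y - 2), sq_nonneg (y - 18 / 5), sq_nonneg (y * (y - 18 / 5)),
        sq_nonneg (y ^ 2 - 18 / 5 * y), mul_pos (by linarith : (0 : ℝ) < y) hq]
    nlinarith

lemma EE_le_tt {x z b g : ℝ} (hx0 : 0 ≤ x) (hz0 : 0 ≤ z) (hx1 : x < 1) (hz1 : z < 1)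
    (hb0 : 0 ≤ b) (hb1 : b < 1) (hg0 : 0 ≤ g) (hg1 : g < 1) :
    EE x z b g ≤ 117 / 50 * (z * (x / (1 - z)) + x * (z / (1 - x)))
      + tt (117 / 50 * (z * (1 - x / (1 - z)))) + tt (117 / 50 * (x * (1 - z / (1 - x))))
      + hh (x / (1 - z)) + hh (z / (1 - x)) - hh x - hh z := by
  have h1 := tt_bound (117 / 50 * (z * (1 - x / (1 - z)))) hb0 hb1
  have h2 := tt_bound (117 / 50 * (x * (1 - z / (1 - x)))) hg0 hg1
  unfold EE
  nlinarith

lemma good_small {x z : ℝ} (hx : 0 ≤ x) (hz : 0 ≤ z) (h : x + z ≤ 1 / 5) : Good x z := by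
  intro b g hb0 hb1 hg0 hg1
  have hx1 : x ≤ 1 / 5 := by linarith
  have hz1 : z ≤ 1 / 5 := by linarith
  have hwz : 0 < 1 - z := by linarith
  have hwx : 0 < 1 - x := by linarith
  have h0 := EE_le_tt hx hz (by linarith) (by linarith) hb0 hb1 hg0 hg1
  have a1 : x / (1 - z) ≤ 5 / 4 * x := by
    rw [div_le_iff₀ hwz]
    nlinarith
  have a2 : z / (1 - x) ≤ 5 / 4 * z := by
    rw [div_le_iff₀ hwx]
    nlinarith
  have a3 : 0 ≤ x / (1 - z) := by positivity
  have a4 : 0 ≤ z / (1 - x) := by positivity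
  have s1 : x / (1 - z) - x ≤ 5 / 4 * (x * z) := by
    have : x / (1 - z) - x = (x / (1 - z)) * z := by
      field_simp
      ring
    rw [this]
    nlinarith
  have s1' : 0 ≤ x / (1 - z) - x := by
    have : x / (1 - z) - x = (x / (1 - z)) * z := by
      field_simp
      ring
    rw [this]
    positivity
  have s2 : z / (1 - x) - z ≤ 5 / 4 * (x * z) := by
    have : z / (1 - x) - z = (z / (1 - x)) * x := by
      field_simp
      ring
    rw [this]
    nlinarith
  have s2' : 0 ≤ z / (1 - x) - z := by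
    have : z / (1 - x) - z = (z / (1 - x)) * x := by
      field_simp
      ring
    rw [this]
    positivity
  have b1 : 117 / 50 * (z * (1 - x / (1 - z))) ≤ 117 / 50 * z := by nlinarith
  have b2 : 117 / 50 * (x * (1 - z / (1 - x))) ≤ 117 / 50 * x := by nlinarith
  have c1 : x / (1 - z) ≤ 1 := by linarith
  have c2 : z / (1 - x) ≤ 1 := by linarith
  have b1' : 0 ≤ 117 / 50 * (z * (1 - x / (1 - z))) := by
    have := mul_nonneg hz (sub_nonneg.mpr c1)
    linarith
  have b2' : 0 ≤ 117 / 50 * (x * (1 - z / (1 - x))) := by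
    have := mul_nonneg hx (sub_nonneg.mpr c2)
    linarith
  have t1 := tt_quad b1'
  have t2 := tt_quad b2'
  have t1' : (117 / 50 * (z * (1 - x / (1 - z)))) ^ 2 ≤ (117 / 50 * z) ^ 2 := by
    exact pow_le_pow_left₀ b1' b1 2
  have t2' : (117 / 50 * (x * (1 - z / (1 - x)))) ^ 2 ≤ (117 / 50 * x) ^ 2 := by
    exact pow_le_pow_left₀ b2' b2 2
  have d1 : hd x ≤ 3 / 2 := by
    unfold hd
    nlinarith [mul_nonneg hx hx, mul_nonneg (mul_nonneg hx hx) hx]
  have d2 : hd z ≤ 3 / 2 := by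
    unfold hd
    nlinarith [mul_nonneg hz hz, mul_nonneg (mul_nonneg hz hz) hz]
  have e1 := hh_tangent (x / (1 - z)) x
  have e2 := hh_tangent (z / (1 - x)) z
  have e1' : hd x * (x / (1 - z) - x) ≤ 3 / 2 * (5 / 4 * (x * z)) := by
    calc hd x * (x / (1 - z) - x) ≤ 3 / 2 * (x / (1 - z) - x) :=
          mul_le_mul_of_nonneg_right d1 s1'
      _ ≤ _ := by linarith
  have e2' : hd z * (z / (1 - x) - z) ≤ 3 / 2 * (5 / 4 * (x * z)) := by
    calc hd z * (z / (1 - x) - z) ≤ 3 / 2 * (z / (1 - x) - z) :=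
          mul_le_mul_of_nonneg_right d2 s2'
      _ ≤ _ := by linarith
  have f1 : z * (x / (1 - z)) ≤ 5 / 4 * (x * z) := by nlinarith
  have f2 : x * (z / (1 - x)) ≤ 5 / 4 * (x * z) := by nlinarith
  have l1 : x ≤ - Real.log (1 - x) := by
    have := Real.log_le_sub_one_of_pos hwx
    linarith
  have l2 : z ≤ - Real.log (1 - z) := by
    have := Real.log_le_sub_one_of_pos hwz
    linarith
  have hp : 0 ≤ x * z := mul_nonneg hx hz
  have m : EE x z b g ≤ 6653 / 1000 * (x + z) ^ 2 := by nlinarith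
  have m2 : (x + z) ^ 2 ≤ 1 / 5 * (x + z) := by nlinarith
  nlinarith

lemma good_large {x z : ℝ} (hx : 0 ≤ x) (h1 : x + z ≤ 1) (hz : 7 / 8 ≤ z) (hz1 : z < 1) :
    Good x z := by
  intro b g hb0 hb1 hg0 hg1
  have hwz : 0 < 1 - z := by linarith
  have hwx : 0 < 1 - x := by linarith
  have c1 : x / (1 - z) ≤ 1 := by
    rw [div_le_one hwz]
    linarith
  have c2 : z / (1 - x) ≤ 1 := by
    rw [div_le_one hwx]
    linarith
  have a3 : 0 ≤ x / (1 - z) := by positivity
  have a4 : 0 ≤ z / (1 - x) := div_nonneg (by linarith) hwx.le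
  have g1 : x / (1 - z) + (1 - x / (1 - z)) * b ≤ 1 := by nlinarith
  have g2 : z / (1 - x) + (1 - z / (1 - x)) * g ≤ 1 := by nlinarith
  have k1 : Real.log (1 - b) ≤ 0 := Real.log_nonpos (by linarith) (by linarith)
  have k2 : Real.log (1 - g) ≤ 0 := Real.log_nonpos (by linarith) (by linarith)
  have p1 := hh_nonneg hx (by linarith)
  have p2 := hh_nonneg (s := z) (by linarith) hz1.le
  have q1 : hh (x / (1 - z)) ≤ 1 / 4 := hh_le
  have q2 : hh (z / (1 - x)) ≤ 1 / 4 := hh_le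
  have l1 : 0 ≤ - Real.log (1 - x) := by
    have := Real.log_nonpos hwx.le (by linarith)
    linarith
  have l2 : 3 * Real.log 2 ≤ - Real.log (1 - z) := by
    have h8 : Real.log (1 - z) ≤ Real.log (1 / 8) := Real.log_le_log hwz (by linarith)
    have h9 : Real.log (1 / 8) = - (3 * Real.log 2) := by
      rw [show (1 / 8 : ℝ) = ((2 : ℝ) ^ 3)⁻¹ by norm_num, Real.log_inv, Real.log_pow]
      norm_num
    linarith
  have l3 := Real.log_two_gt_d9
  have z1 : z * (x / (1 - z) + (1 - x / (1 - z)) * b) ≤ z := by nlinarith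
  have z2 : x * (z / (1 - x) + (1 - z / (1 - x)) * g) ≤ x := by nlinarith
  unfold EE
  nlinarith

lemma EE_swap (x z b g : ℝ) : EE x z b g = EE z x g b := by
  unfold EE
  ring

lemma good_swap {x z : ℝ} (h : Good x z) : Good z x := by
  intro b g hb0 hb1 hg0 hg1
  have := h g b hg0 hg1 hb0 hb1
  rw [EE_swap]
  linarith

/-- **Certificate (C)** with the constant `7213/5000 = 1.4426 < 1 / log 2` and slack. -/
theorem cert {x z : ℝ} (hx : 0 ≤ x) (hz : 0 ≤ z) (hx1 : x < 1) (hz1 : z < 1)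
    (h : x + z ≤ 1) : Good x z := by
  rcases le_total (x + z) (1 / 5) with hs | hs
  · exact good_small hx hz hs
  · rcases le_total x z with hxz | hxz
    · rcases le_total z (7 / 8) with h7 | h7
      · exact good_mid hx hxz h hs h7
      · exact good_large hx h h7 hz1
    · apply good_swap
      rcases le_total x (7 / 8) with h7 | h7
      · exact good_mid hz hxz (by linarith) (by linarith) h7
      · exact good_large hz (by linarith) h7 hx1

/-- The same in fully explicit form. -/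
theorem cert_explicit {x z b g : ℝ} (hx : 0 ≤ x) (hz : 0 ≤ z) (hx1 : x < 1) (hz1 : z < 1)
    (h : x + z ≤ 1) (hb0 : 0 ≤ b) (hb1 : b < 1) (hg0 : 0 ≤ g) (hg1 : g < 1) :
    117 / 50 * (z * (x / (1 - z) + (1 - x / (1 - z)) * b)
      + x * (z / (1 - x) + (1 - z / (1 - x)) * g))
    + 17 / 200 * (Real.log (1 - b) + Real.log (1 - g))
    + hh (x / (1 - z)) + hh (z / (1 - x)) - hh x - hh z
    + 3 / 1000 * (x + z)
    ≤ 7213 / 5000 * (- Real.log (1 - x) - Real.log (1 - z)) := by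
  have := cert hx hz hx1 hz1 h b g hb0 hb1 hg0 hg1
  unfold EE at this
  exact this

/-- The constant is smaller than `1 / log 2`. -/
theorem const_lt : (7213 / 5000 : ℝ) < 1 / Real.log 2 := by
  have h1 := Real.log_two_lt_d9
  have h2 : 0 < Real.log 2 := Real.log_pos (by norm_num)
  rw [lt_div_iff₀ h2]
  nlinarith

end Pool.Agent.LN2
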