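import Mathlib

/-!
Project LN2 (MP_aaed04_an), certificate (C) of notes 2790 / 2806, base part (helper8).

Parameters: mu = 17/200, c = 2 (1 + 2 mu) = 117/50, potential
h(s) = (3/2) q - (9/4) q^2 with q = s (1 - s).
-/

namespace Pool.Agent.LN2

/-- Pade lower bound of the logarithm. -/
lemma pade_log {y : ℝ} (hy : 1 ≤ y) :
    3 * (y ^ 2 - 1) / (y ^ 2 + 4 * y + 1) ≤ Real.log y := by
  have hpos : ∀ t : ℝ, 1 ≤ t → 0 < t ^ 2 + 4 * t + 1 := fun t ht => by nlinarith
  have hd : ∀ t : ℝ, 1 ≤ t → HasDerivAt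
      (fun t : ℝ => Real.log t - 3 * (t ^ 2 - 1) / (t ^ 2 + 4 * t + 1))
      ((t - 1) ^ 4 / (t * (t ^ 2 + 4 * t + 1) ^ 2)) t := by
    intro t ht
    have h1 : HasDerivAt Real.log t⁻¹ t := Real.hasDerivAt_log (by linarith)
    have h2 : HasDerivAt (fun t : ℝ => 3 * (t ^ 2 - 1)) (3 * (2 * t)) t := by
      have := ((hasDerivAt_pow 2 t).sub_const 1).const_mul 3
      simpa using this
    have h3 : HasDerivAt (fun t : ℝ => t ^ 2 + 4 * t + 1) (2 * t + 4) t := by
      have := ((hasDerivAt_pow 2 t).add ((hasDerivAt_id t).const_mul 4)).add_const (1 : ℝ)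
      simpa using this
    have h4 := h1.sub (h2.div h3 (ne_of_gt (hpos t ht)))
    refine h4.congr_deriv ?_
    have ht0 : t ≠ 0 := by linarith
    have hq : t ^ 2 + 4 * t + 1 ≠ 0 := ne_of_gt (hpos t ht)
    field_simp
    ring
  have hmono : MonotoneOn (fun t : ℝ => Real.log t - 3 * (t ^ 2 - 1) / (t ^ 2 + 4 * t + 1))
      (Set.Ici 1) := by
    apply monotoneOn_of_deriv_nonneg (convex_Ici 1)
    · intro t ht
      exact (hd t ht).continuousAt.continuousWithinAt
    · intro t ht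
      rw [interior_Ici] at ht
      exact (hd t (le_of_lt ht)).differentiableAt.differentiableWithinAt
    · intro t ht
      rw [interior_Ici] at ht
      rw [(hd t (le_of_lt ht)).deriv]
      have ht' : (0 : ℝ) < t := by
        have : (1 : ℝ) < t := ht
        linarith
      positivity
  have h := hmono (Set.mem_Ici.mpr le_rfl) (Set.mem_Ici.mpr hy) hy
  simp only [Real.log_one] at h
  have : (3 : ℝ) * (1 ^ 2 - 1) / (1 ^ 2 + 4 * 1 + 1) = 0 := by norm_num
  rw [this] at h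
  linarith

/-- Rational lower bound of `- log (1 - z)`. -/
noncomputable def llr (z : ℝ) : ℝ := 3 * z * (2 - z) / (6 - 6 * z + z ^ 2)

lemma llr_le {z : ℝ} (h0 : 0 ≤ z) (h1 : z < 1) : llr z ≤ - Real.log (1 - z) := by
  have hw : 0 < 1 - z := by linarith
  have h := pade_log (y := (1 - z)⁻¹) (by rw [one_le_inv₀ hw]; linarith)
  rw [Real.log_inv] at h
  refine le_trans (le_of_eq ?_) h
  unfold llr
  have h2 : (0 : ℝ) < 6 - 6 * z + z ^ 2 := by nlinarith
  have h3 : (0 : ℝ) < ((1 - z)⁻¹) ^ 2 + 4 * (1 - z)⁻¹ + 1 := by positivity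
  rw [div_eq_div_iff (ne_of_gt h2) (ne_of_gt h3)]
  field_simp
  ring

/-- Tangent bound for `- log (1 - x)` at the point `a`. -/
lemma log_tangent {a x : ℝ} (ha0 : 0 ≤ a) (ha : a < 1) (hx : x < 1) :
    llr a + (x - a) / (1 - a) ≤ - Real.log (1 - x) := by
  have h1 : 0 < 1 - a := by linarith
  have h2 : 0 < 1 - x := by linarith
  have h3 := llr_le ha0 ha
  have h4 : Real.log ((1 - x) / (1 - a)) ≤ (1 - x) / (1 - a) - 1 :=
    Real.log_le_sub_one_of_pos (div_pos h2 h1)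
  rw [Real.log_div (ne_of_gt h2) (ne_of_gt h1)] at h4
  have h5 : (1 - x) / (1 - a) - 1 = -((x - a) / (1 - a)) := by
    field_simp
    ring
  rw [h5] at h4
  linarith

/-- The potential. -/
noncomputable def hh (s : ℝ) : ℝ := 3 / 2 * s - 15 / 4 * s ^ 2 + 9 / 2 * s ^ 3 - 9 / 4 * s ^ 4

/-- Its derivative. -/
noncomputable def hd (s : ℝ) : ℝ := 3 / 2 - 15 / 2 * s + 27 / 2 * s ^ 2 - 9 * s ^ 3

lemma hh_symm (s : ℝ) : hh (1 - s) = hh s := by
  unfold hh
  ring

lemma hh_nonneg {s : ℝ} (h0 : 0 ≤ s) (h1 : s ≤ 1) : 0 ≤ hh s := by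
  have : hh s = s * (1 - s) * (3 / 2 - 9 / 4 * (s * (1 - s))) := by
    unfold hh
    ring
  rw [this]
  have h2 : 0 ≤ s * (1 - s) := mul_nonneg h0 (by linarith)
  have h3 : s * (1 - s) ≤ 1 / 4 := by nlinarith [sq_nonneg (s - 1 / 2)]
  exact mul_nonneg h2 (by linarith)

lemma hh_le {s : ℝ} : hh s ≤ 1 / 4 := by
  have : 1 / 4 - hh s = (3 / 2 * (s * (1 - s)) - 1 / 2) ^ 2 := by
    unfold hh
    ring
  nlinarith [sq_nonneg (3 / 2 * (s * (1 - s)) - 1 / 2)]

/-- Concavity of `hh`: tangents. -/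
lemma hh_tangent (s t : ℝ) : hh s ≤ hh t + hd t * (s - t) := by
  have : hh t + hd t * (s - t) - hh s
      = (s - t) ^ 2 * (3 / 8 + 9 / 4 * ((s + t - 1) ^ 2 + 2 * (t - 1 / 2) ^ 2)) := by
    unfold hh hd
    ring
  have h2 : 0 ≤ (s - t) ^ 2 * (3 / 8 + 9 / 4 * ((s + t - 1) ^ 2 + 2 * (t - 1 / 2) ^ 2)) := by
    positivity
  linarith

/-- Concavity of `hh`: chords. -/
lemma hh_chord {a b x : ℝ} (h1 : a ≤ x) (h2 : x ≤ b) :
    (b - x) * hh a + (x - a) * hh b ≤ (b - a) * hh x := by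
  have : (b - a) * hh x - ((b - x) * hh a + (x - a) * hh b)
      = (x - a) * (b - x) * (b - a)
        * (3 / 8 + 9 / 8 * ((x + a - 1) ^ 2 + (x + b - 1) ^ 2 + (a + b - 1) ^ 2)
          ) := by
    unfold hh
    ring
  have h3 : 0 ≤ (x - a) * (b - x) * (b - a)
        * (3 / 8 + 9 / 8 * ((x + a - 1) ^ 2 + (x + b - 1) ^ 2 + (a + b - 1) ^ 2)) := by
    have := mul_nonneg (mul_nonneg (sub_nonneg.mpr h1) (sub_nonneg.mpr h2))
      (sub_nonneg.mpr (h1.trans h2))
    positivity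
  linarith

/-- `phi z = z / (1 - z)`. -/
noncomputable def ph (z : ℝ) : ℝ := z / (1 - z)

lemma ph_nonneg {z : ℝ} (h0 : 0 ≤ z) (h1 : z < 1) : 0 ≤ ph z :=
  div_nonneg h0 (by linarith)

lemma ph_chord {a b x : ℝ} (h1 : a ≤ x) (h2 : x ≤ b) (hb : b < 1) :
    (b - a) * ph x ≤ (b - x) * ph a + (x - a) * ph b := by
  have ha : 0 < 1 - a := by linarith
  have hx : 0 < 1 - x := by linarith
  have hb' : 0 < 1 - b := by linarith
  have : (b - x) * ph a + (x - a) * ph b - (b - a) * ph x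
      = (x - a) * (b - x) * (b - a) / ((1 - a) * (1 - x) * (1 - b)) := by
    unfold ph
    field_simp
    ring
  have h3 : 0 ≤ (x - a) * (b - x) * (b - a) / ((1 - a) * (1 - x) * (1 - b)) := by
    have := mul_nonneg (mul_nonneg (sub_nonneg.mpr h1) (sub_nonneg.mpr h2))
      (sub_nonneg.mpr (h1.trans h2))
    positivity
  linarith

/-- tangent of `ph` at `a`. -/
noncomputable def pt (a z : ℝ) : ℝ := a / (1 - a) + (z - a) / (1 - a) ^ 2

lemma pt_le {a z : ℝ} (ha : a < 1) (hz : z < 1) : pt a z ≤ ph z := by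
  have h1 : 0 < 1 - a := by linarith
  have h2 : 0 < 1 - z := by linarith
  have : ph z - pt a z = (z - a) ^ 2 / ((1 - z) * (1 - a) ^ 2) := by
    unfold ph pt
    field_simp
    ring
  have h3 : 0 ≤ (z - a) ^ 2 / ((1 - z) * (1 - a) ^ 2) := by positivity
  linarith

/-- One-dimensional convexity lemma. -/
lemma conv1 {a b x p q r : ℝ} (h1 : a ≤ x) (h2 : x ≤ b) (hb : b < 1) (hr : 0 ≤ r)
    (ha' : p + q * a + r * ph a - hh a ≤ 0) (hb' : p + q * b + r * ph b - hh b ≤ 0) :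
    p + q * x + r * ph x - hh x ≤ 0 := by
  rcases eq_or_lt_of_le (h1.trans h2) with h | h
  · have : x = a := le_antisymm (by linarith) h1
    rw [this]
    exact ha'
  · have hc := hh_chord h1 h2
    have hp := mul_le_mul_of_nonneg_left (ph_chord h1 h2 hb) hr
    have e1 := mul_nonpos_of_nonneg_of_nonpos (sub_nonneg.mpr h2) ha'
    have e2 := mul_nonpos_of_nonneg_of_nonpos (sub_nonneg.mpr h1) hb'
    have key : (b - a) * (p + q * x + r * ph x - hh x) ≤ 0 := by nlinarith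
    by_contra hcon
    push Not at hcon
    have := mul_pos (sub_pos.mpr h) hcon
    linarith

/-- Upper bound of `sup_beta (A beta + mu log (1 - beta))`, `mu = 17/200`. -/
noncomputable def tt (A : ℝ) : ℝ :=
  if A ≤ 17 / 200 then 0
  else A - 17 / 200 - 17 / 200 * (3 * ((200 / 17 * A) ^ 2 - 1)
    / ((200 / 17 * A) ^ 2 + 4 * (200 / 17 * A) + 1))

lemma tt_bound (A : ℝ) {b : ℝ} (hb0 : 0 ≤ b) (hb1 : b < 1) :
    A * b + 17 / 200 * Real.log (1 - b) ≤ tt A := by
  have hw : 0 < 1 - b := by linarith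
  unfold tt
  split_ifs with h
  · have h1 : Real.log (1 - b) ≤ (1 - b) - 1 := Real.log_le_sub_one_of_pos hw
    nlinarith
  · push Not at h
    have hA : 0 < A := by linarith
    have hy : (1 : ℝ) ≤ 200 / 17 * A := by linarith
    have h1 := pade_log hy
    have h2 : Real.log ((1 - b) * (200 / 17 * A)) ≤ (1 - b) * (200 / 17 * A) - 1 :=
      Real.log_le_sub_one_of_pos (by positivity)
    rw [Real.log_mul (ne_of_gt hw) (by positivity)] at h2
    nlinarith

end Pool.Agent.LN2
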