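import Pool.Agent.LN2.CertBase

/-!
Project LN2 (MP_aaed04_an), certificate (C), the box lemma (helper8).
-/

namespace Pool.Agent.LN2

/-- The left hand side of (C). -/
noncomputable def EE (x z b g : ℝ) : ℝ :=
  117 / 50 * (z * (x / (1 - z) + (1 - x / (1 - z)) * b)
    + x * (z / (1 - x) + (1 - z / (1 - x)) * g))
  + 17 / 200 * (Real.log (1 - b) + Real.log (1 - g))
  + hh (x / (1 - z)) + hh (z / (1 - x)) - hh x - hh z

/-- The separately convex majorant on a box (with centre data `u v s t`). -/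
noncomputable def MM (u v s t b g x z : ℝ) : ℝ :=
  117 / 50 * (x * ph z + z * ph x)
  + (117 / 50 * (z - x * pt v z) * b + 17 / 200 * Real.log (1 - b))
  + (117 / 50 * (x - z * pt u x) * g + 17 / 200 * Real.log (1 - g))
  + (hh s - hd s * s) + max (hd s) 0 * (x * (1 + ph z)) + min (hd s) 0 * (x * (1 + pt v z))
  + (hh t - hd t * t) + max (hd t) 0 * (z * (1 + ph x)) + min (hd t) 0 * (z * (1 + pt u x))
  - hh x - hh z
  - 7213 / 5000 * (llr u + (x - u) / (1 - u) + llr v + (z - v) / (1 - v))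
  + 3 / 1000 * (x + z)

/-- The corner function. -/
noncomputable def cor (u v s t x z : ℝ) : ℝ :=
  117 / 50 * (x * ph z + z * ph x)
  + tt (117 / 50 * (z - x * pt v z)) + tt (117 / 50 * (x - z * pt u x))
  + (hh s - hd s * s) + max (hd s) 0 * (x * (1 + ph z)) + min (hd s) 0 * (x * (1 + pt v z))
  + (hh t - hd t * t) + max (hd t) 0 * (z * (1 + ph x)) + min (hd t) 0 * (z * (1 + pt u x))
  - hh x - hh z
  - 7213 / 5000 * (llr u + (x - u) / (1 - u) + llr v + (z - v) / (1 - v))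
  + 3 / 1000 * (x + z)

lemma MM_le_cor (u v s t x z : ℝ) {b g : ℝ} (hb0 : 0 ≤ b) (hb1 : b < 1)
    (hg0 : 0 ≤ g) (hg1 : g < 1) : MM u v s t b g x z ≤ cor u v s t x z := by
  have h1 := tt_bound (117 / 50 * (z - x * pt v z)) hb0 hb1
  have h2 := tt_bound (117 / 50 * (x - z * pt u x)) hg0 hg1
  unfold MM cor
  linarith

lemma MM_swap (u v s t b g x z : ℝ) : MM u v s t b g x z = MM v u t s g b z x := by
  unfold MM
  ring

/-- Convexity in `z`. -/
lemma MM_conv (u v s t b g x : ℝ) {z0 z1 z : ℝ} (hx : 0 ≤ x)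
    (h1 : z0 ≤ z) (h2 : z ≤ z1) (hz1 : z1 < 1)
    (ha : MM u v s t b g x z0 ≤ 0) (hb : MM u v s t b g x z1 ≤ 0) :
    MM u v s t b g x z ≤ 0 := by
  set p : ℝ := 117 / 50 * b * (- (x * (v / (1 - v) - v / (1 - v) ^ 2)))
    + 17 / 200 * Real.log (1 - b) + 117 / 50 * x * g + 17 / 200 * Real.log (1 - g)
    + (hh s - hd s * s) + max (hd s) 0 * x
    + min (hd s) 0 * (x * (1 + (v / (1 - v) - v / (1 - v) ^ 2)))
    + (hh t - hd t * t) - hh x
    - 7213 / 5000 * (llr u + (x - u) / (1 - u) + llr v + (- v) / (1 - v))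
    + 3 / 1000 * x with hp
  set q : ℝ := 117 / 50 * ph x + 117 / 50 * b * (1 - x * (1 / (1 - v) ^ 2))
    - 117 / 50 * pt u x * g + min (hd s) 0 * (x * (1 / (1 - v) ^ 2))
    + max (hd t) 0 * (1 + ph x) + min (hd t) 0 * (1 + pt u x)
    - 7213 / 5000 * (1 / (1 - v)) + 3 / 1000 with hq
  set r : ℝ := 117 / 50 * x + max (hd s) 0 * x with hr
  have hr0 : 0 ≤ r := by
    rw [hr]
    have : 0 ≤ max (hd s) 0 := le_max_right _ _
    positivity
  have key : ∀ y : ℝ, MM u v s t b g x y = p + q * y + r * ph y - hh y := by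
    intro y
    rw [hp, hq, hr]
    unfold MM
    have e : pt v y = (v / (1 - v) - v / (1 - v) ^ 2) + (1 / (1 - v) ^ 2) * y := by
      unfold pt
      ring
    have e2 : (y - v) / (1 - v) = (- v) / (1 - v) + (1 / (1 - v)) * y := by ring
    rw [e, e2]
    ring
  rw [key] at ha hb ⊢
  exact conv1 h1 h2 hz1 hr0 ha hb

/-- The box lemma for the majorant. -/
lemma MM_box (u v s t : ℝ) {x0 x1 z0 z1 : ℝ} (hx0 : 0 ≤ x0) (hx1 : x1 < 1)
    (hz0 : 0 ≤ z0) (hz1 : z1 < 1)
    (c00 : cor u v s t x0 z0 ≤ 0) (c10 : cor u v s t x1 z0 ≤ 0)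
    (c01 : cor u v s t x0 z1 ≤ 0) (c11 : cor u v s t x1 z1 ≤ 0)
    {b g : ℝ} (hb0 : 0 ≤ b) (hb1 : b < 1) (hg0 : 0 ≤ g) (hg1 : g < 1)
    {x z : ℝ} (hx : x0 ≤ x) (hx' : x ≤ x1) (hz : z0 ≤ z) (hz' : z ≤ z1) :
    MM u v s t b g x z ≤ 0 := by
  have hx1' : 0 ≤ x1 := hx0.trans (hx.trans hx')
  have hz' : 0 ≤ z := hz0.trans hz
  have d00 := (MM_le_cor u v s t x0 z0 hb0 hb1 hg0 hg1).trans c00
  have d10 := (MM_le_cor u v s t x1 z0 hb0 hb1 hg0 hg1).trans c10
  have d01 := (MM_le_cor u v s t x0 z1 hb0 hb1 hg0 hg1).trans c01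
  have d11 := (MM_le_cor u v s t x1 z1 hb0 hb1 hg0 hg1).trans c11
  have e0 := MM_conv u v s t b g x0 hx0 hz (by assumption) hz1 d00 d01
  have e1 := MM_conv u v s t b g x1 hx1' hz (by assumption) hz1 d10 d11
  rw [MM_swap] at e0 e1 ⊢
  exact MM_conv v u t s g b z hz' hx hx' hx1 e0 e1

/-- The majorant property. -/
lemma EE_le_MM {u v : ℝ} (s t : ℝ) (hu0 : 0 ≤ u) (hu : u < 1) (hv0 : 0 ≤ v) (hv : v < 1)
    {x z b g : ℝ} (hx0 : 0 ≤ x) (hx1 : x < 1) (hz0 : 0 ≤ z) (hz1 : z < 1)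
    (hb0 : 0 ≤ b) (hg0 : 0 ≤ g) :
    EE x z b g - 7213 / 5000 * (- Real.log (1 - x) - Real.log (1 - z)) + 3 / 1000 * (x + z)
      ≤ MM u v s t b g x z := by
  have hx' : 0 < 1 - x := by linarith
  have hz' : 0 < 1 - z := by linarith
  have es : x / (1 - z) = x * (1 + ph z) := by
    unfold ph
    field_simp
    ring
  have et : z / (1 - x) = z * (1 + ph x) := by
    unfold ph
    field_simp
    ring
  have ez : z * (1 + ph z) = ph z := by
    unfold ph
    field_simp
    ring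
  have ex : x * (1 + ph x) = ph x := by
    unfold ph
    field_simp
    ring
  have p1 := pt_le hv hz1
  have p2 := pt_le hu hx1
  have t1 := hh_tangent (x * (1 + ph z)) s
  have t2 := hh_tangent (z * (1 + ph x)) t
  have l1 := log_tangent hu0 hu hx1
  have l2 := log_tangent hv0 hv hz1
  have m1 : hd s = max (hd s) 0 + min (hd s) 0 := by
    rcases le_total (hd s) 0 with h | h
    · rw [max_eq_right h, min_eq_left h, zero_add]
    · rw [max_eq_left h, min_eq_right h, add_zero]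
  have m2 : hd t = max (hd t) 0 + min (hd t) 0 := by
    rcases le_total (hd t) 0 with h | h
    · rw [max_eq_right h, min_eq_left h, zero_add]
    · rw [max_eq_left h, min_eq_right h, add_zero]
  have n1 : min (hd s) 0 ≤ 0 := min_le_right _ _
  have n2 : min (hd t) 0 ≤ 0 := min_le_right _ _
  -- the four one-sided replacements
  have r1 : 0 ≤ x * (ph z - pt v z) * b :=
    mul_nonneg (mul_nonneg hx0 (sub_nonneg.mpr p1)) hb0
  have r2 : 0 ≤ z * (ph x - pt u x) * g :=
    mul_nonneg (mul_nonneg hz0 (sub_nonneg.mpr p2)) hg0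
  have r3 : min (hd s) 0 * (x * (ph z - pt v z)) ≤ 0 :=
    mul_nonpos_of_nonpos_of_nonneg n1 (mul_nonneg hx0 (sub_nonneg.mpr p1))
  have r4 : min (hd t) 0 * (z * (ph x - pt u x)) ≤ 0 :=
    mul_nonpos_of_nonpos_of_nonneg n2 (mul_nonneg hz0 (sub_nonneg.mpr p2))
  have a1 : z * (x * (1 + ph z) + (1 - x * (1 + ph z)) * b)
      = x * ph z + (z - x * ph z) * b := by
    have : z * (x * (1 + ph z)) = x * ph z := by
      linear_combination x * ez
    calc z * (x * (1 + ph z) + (1 - x * (1 + ph z)) * b)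
        = z * (x * (1 + ph z)) + (z - z * (x * (1 + ph z))) * b := by ring
      _ = _ := by rw [this]
  have a2 : x * (z * (1 + ph x) + (1 - z * (1 + ph x)) * g)
      = z * ph x + (x - z * ph x) * g := by
    have : x * (z * (1 + ph x)) = z * ph x := by
      linear_combination z * ex
    calc x * (z * (1 + ph x) + (1 - z * (1 + ph x)) * g)
        = x * (z * (1 + ph x)) + (x - x * (z * (1 + ph x))) * g := by ring
      _ = _ := by rw [this]
  unfold EE MM
  rw [es, et, a1, a2]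
  have f1 : hd s * (x * (1 + ph z) - s) = max (hd s) 0 * (x * (1 + ph z))
      + min (hd s) 0 * (x * (1 + pt v z)) + min (hd s) 0 * (x * (ph z - pt v z))
      - hd s * s := by
    have : hd s * (x * (1 + ph z)) = (max (hd s) 0 + min (hd s) 0) * (x * (1 + ph z)) := by
      rw [← m1]
    linear_combination this
  have f2 : hd t * (z * (1 + ph x) - t) = max (hd t) 0 * (z * (1 + ph x))
      + min (hd t) 0 * (z * (1 + pt u x)) + min (hd t) 0 * (z * (ph x - pt u x))
      - hd t * t := by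
    have : hd t * (z * (1 + ph x)) = (max (hd t) 0 + min (hd t) 0) * (z * (1 + ph x)) := by
      rw [← m2]
    linear_combination this
  rw [f1] at t1
  rw [f2] at t2
  linarith

end Pool.Agent.LN2
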