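import Pool.Agent.LN2.CertBox

/-!
Project LN2 (MP_aaed04_an), certificate (C), the rational checker (helper8).
-/

namespace Pool.Agent.LN2

def hhq (s : ℚ) : ℚ := 3 / 2 * s - 15 / 4 * s ^ 2 + 9 / 2 * s ^ 3 - 9 / 4 * s ^ 4
def hdq (s : ℚ) : ℚ := 3 / 2 - 15 / 2 * s + 27 / 2 * s ^ 2 - 9 * s ^ 3
def phq (z : ℚ) : ℚ := z / (1 - z)
def ptq (a z : ℚ) : ℚ := a / (1 - a) + (z - a) / (1 - a) ^ 2
def llq (z : ℚ) : ℚ := 3 * z * (2 - z) / (6 - 6 * z + z ^ 2)
def ttq (A : ℚ) : ℚ :=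
  if A ≤ 17 / 200 then 0
  else A - 17 / 200 - 17 / 200 * (3 * ((200 / 17 * A) ^ 2 - 1)
    / ((200 / 17 * A) ^ 2 + 4 * (200 / 17 * A) + 1))

def corq (u v s t x z : ℚ) : ℚ :=
  117 / 50 * (x * phq z + z * phq x)
  + ttq (117 / 50 * (z - x * ptq v z)) + ttq (117 / 50 * (x - z * ptq u x))
  + (hhq s - hdq s * s) + max (hdq s) 0 * (x * (1 + phq z))
  + min (hdq s) 0 * (x * (1 + ptq v z))
  + (hhq t - hdq t * t) + max (hdq t) 0 * (z * (1 + phq x))
  + min (hdq t) 0 * (z * (1 + ptq u x))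
  - hhq x - hhq z
  - 7213 / 5000 * (llq u + (x - u) / (1 - u) + llq v + (z - v) / (1 - v))
  + 3 / 1000 * (x + z)

lemma ttq_cast (A : ℚ) : ((ttq A : ℚ) : ℝ) = tt (A : ℝ) := by
  unfold ttq tt
  by_cases h : A ≤ 17 / 200
  · have h' : (A : ℝ) ≤ 17 / 200 := by
      have h2 : ((A : ℚ) : ℝ) ≤ ((17 / 200 : ℚ) : ℝ) := Rat.cast_le.mpr h
      push_cast at h2
      exact h2
    rw [if_pos h, if_pos h']
    norm_num
  · have h' : ¬ (A : ℝ) ≤ 17 / 200 := by
      intro hc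
      apply h
      have h2 : ((A : ℚ) : ℝ) ≤ ((17 / 200 : ℚ) : ℝ) := by
        push_cast
        exact hc
      exact Rat.cast_le.mp h2
    rw [if_neg h, if_neg h']
    push_cast
    ring

lemma corq_cast (u v s t x z : ℚ) :
    ((corq u v s t x z : ℚ) : ℝ) = cor (u : ℝ) v s t x z := by
  unfold corq cor
  push_cast [ttq_cast]
  simp only [hhq, hdq, phq, ptq, llq, hh, hd, ph, pt, llr]
  push_cast
  ring

/-- The check of one square box with corner `(x0, z0)` and side `h`. -/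
def chk (x0 z0 h : ℚ) : Bool :=
  let u := x0 + h / 2
  let v := z0 + h / 2
  let s := min 1 (u / (1 - v))
  let t := min 1 (v / (1 - u))
  decide (corq u v s t x0 z0 ≤ 0) && decide (corq u v s t (x0 + h) z0 ≤ 0)
    && decide (corq u v s t x0 (z0 + h) ≤ 0) && decide (corq u v s t (x0 + h) (z0 + h) ≤ 0)

/-- The recursive checker. -/
def rchk : ℕ → ℚ → ℚ → ℚ → Bool
  | 0, _, _, _ => false
  | n + 1, x0, z0, h =>
    decide (1 < x0 + z0) || decide (z0 + h < x0) || decide (x0 + z0 + 2 * h < 1 / 5)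
      || chk x0 z0 h
      || (rchk n x0 z0 (h / 2) && rchk n (x0 + h / 2) z0 (h / 2)
        && rchk n x0 (z0 + h / 2) (h / 2) && rchk n (x0 + h / 2) (z0 + h / 2) (h / 2))

/-- The statement for one point. -/
def Good (x z : ℝ) : Prop := ∀ b g : ℝ, 0 ≤ b → b < 1 → 0 ≤ g → g < 1 →
  EE x z b g + 3 / 1000 * (x + z) ≤ 7213 / 5000 * (- Real.log (1 - x) - Real.log (1 - z))

lemma chk_sound {x0 z0 h : ℚ} (hc : chk x0 z0 h = true) (hx0 : 0 ≤ x0) (hz0 : 0 ≤ z0)
    (hh0 : 0 < h) (hx1 : x0 + h < 1) (hz1 : z0 + h < 1)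
    {x z : ℝ} (a1 : (x0 : ℝ) ≤ x) (a2 : x ≤ (x0 : ℝ) + h) (a3 : (z0 : ℝ) ≤ z)
    (a4 : z ≤ (z0 : ℝ) + h) : Good x z := by
  intro b g hb0 hb1 hg0 hg1
  simp only [chk, Bool.and_eq_true, decide_eq_true_eq] at hc
  obtain ⟨⟨⟨c00, c10⟩, c01⟩, c11⟩ := hc
  set u : ℚ := x0 + h / 2 with hu
  set v : ℚ := z0 + h / 2 with hv
  set s : ℚ := min 1 (u / (1 - v))
  set t : ℚ := min 1 (v / (1 - u))
  have cast : ∀ p q : ℚ, corq u v s t p q ≤ 0 → cor (u : ℝ) v s t p q ≤ 0 := by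
    intro p q h
    rw [← corq_cast]
    exact_mod_cast h
  have d00 := cast _ _ c00
  have d10 := cast _ _ c10
  have d01 := cast _ _ c01
  have d11 := cast _ _ c11
  push_cast at d00 d10 d01 d11
  have hx0' : (0 : ℝ) ≤ x0 := by exact_mod_cast hx0
  have hz0' : (0 : ℝ) ≤ z0 := by exact_mod_cast hz0
  have hx1' : (x0 : ℝ) + h < 1 := by exact_mod_cast hx1
  have hz1' : (z0 : ℝ) + h < 1 := by exact_mod_cast hz1
  have hu0 : (0 : ℝ) ≤ u := by
    have : (0 : ℚ) ≤ u := by rw [hu]; positivity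
    exact_mod_cast this
  have hu1 : (u : ℝ) < 1 := by
    have : u < 1 := by rw [hu]; linarith
    exact_mod_cast this
  have hv0 : (0 : ℝ) ≤ v := by
    have : (0 : ℚ) ≤ v := by rw [hv]; positivity
    exact_mod_cast this
  have hv1 : (v : ℝ) < 1 := by
    have : v < 1 := by rw [hv]; linarith
    exact_mod_cast this
  have k1 := MM_box (u : ℝ) v s t hx0' hx1' hz0' hz1' d00 d10 d01 d11 hb0 hb1 hg0 hg1
    a1 a2 a3 a4
  have k2 := EE_le_MM (s : ℝ) t hu0 hu1 hv0 hv1 (x := x) (z := z) (b := b) (g := g)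
    (hx0'.trans a1) (lt_of_le_of_lt a2 hx1') (hz0'.trans a3) (lt_of_le_of_lt a4 hz1') hb0 hg0
  linarith

lemma rchk_sound : ∀ (n : ℕ) (x0 z0 h : ℚ), rchk n x0 z0 h = true → 0 ≤ x0 → 0 ≤ z0 →
    0 < h → x0 + h < 1 → z0 + h < 1 → ∀ x z : ℝ, (x0 : ℝ) ≤ x → x ≤ (x0 : ℝ) + h →
    (z0 : ℝ) ≤ z → z ≤ (z0 : ℝ) + h → x ≤ z → x + z ≤ 1 → 1 / 5 ≤ x + z → Good x z := by
  intro n
  induction n with
  | zero =>
    intro x0 z0 h hc
    simp [rchk] at hc
  | succ n ih =>
    intro x0 z0 h hc hx0 hz0 hh0 hx1 hz1 x z a1 a2 a3 a4 hxz h1 h2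
    rw [rchk] at hc
    simp only [Bool.or_eq_true, Bool.and_eq_true, decide_eq_true_eq] at hc
    rcases hc with (((hc | hc) | hc) | hc) | hc
    · exfalso
      have : (1 : ℝ) < x0 + z0 := by exact_mod_cast hc
      linarith
    · exfalso
      have : (z0 : ℝ) + h < x0 := by exact_mod_cast hc
      linarith
    · exfalso
      have : (x0 : ℝ) + z0 + 2 * h < 1 / 5 := by
        have h3 : ((x0 + z0 + 2 * h : ℚ) : ℝ) < ((1 / 5 : ℚ) : ℝ) := by exact_mod_cast hc
        push_cast at h3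
        exact h3
      linarith
    · exact chk_sound hc hx0 hz0 hh0 hx1 hz1 a1 a2 a3 a4
    · obtain ⟨⟨⟨r1, r2⟩, r3⟩, r4⟩ := hc
      have q1 : x0 + h / 2 + h / 2 = x0 + h := by ring
      have q2 : z0 + h / 2 + h / 2 = z0 + h := by ring
      have hp : 0 < h / 2 := by positivity
      rcases le_total x ((x0 : ℝ) + h / 2) with b1 | b1
      · rcases le_total z ((z0 : ℝ) + h / 2) with b2 | b2
        · exact ih x0 z0 (h / 2) r1 hx0 hz0 hp (by linarith) (by linarith) x z a1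
            (by push_cast; exact b1) a3 (by push_cast; exact b2) hxz h1 h2
        · exact ih x0 (z0 + h / 2) (h / 2) r3 hx0 (by positivity) hp (by linarith)
            (by linarith) x z a1 (by push_cast; exact b1) (by push_cast; exact b2)
            (by push_cast; linarith) hxz h1 h2
      · rcases le_total z ((z0 : ℝ) + h / 2) with b2 | b2
        · exact ih (x0 + h / 2) z0 (h / 2) r2 (by positivity) hz0 hp (by linarith)
            (by linarith) x z (by push_cast; exact b1) (by push_cast; linarith) a3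
            (by push_cast; exact b2) hxz h1 h2
        · exact ih (x0 + h / 2) (z0 + h / 2) (h / 2) r4 (by positivity) (by positivity) hp
            (by linarith) (by linarith) x z (by push_cast; exact b1) (by push_cast; linarith)
            (by push_cast; exact b2) (by push_cast; linarith) hxz h1 h2

end Pool.Agent.LN2
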